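import Pool.Agent.H90.Full.Main
import Pool.Agent.H62.Ind.P3

set_option autoImplicit false

/-!
Rooted codes with sides (MP_a46c6f_co, full Q1): **closed pairs have midpoints**, closed paths have
bad points.
-/

namespace Pool.Agent.H90.Full

open Pool.Agent.H98.Code Pool.Agent.H17.TR Pool.Agent.H17.P3 Pool.Agent.H77.Q Pool.Agent.H98.TR

theorem t_eqm : ∀ m l x : ZMod 2, l ≠ m → x ≠ l → x = m := by decide

theorem t_lm : ∀ m l x : ZMod 2, l ≠ m → x = l ∨ x = m := by decide

theorem t_one : ∀ m l : ZMod 2, l ≠ m → l + m = 1 := by decide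

section
variable {X : Type} [Fintype X] [DecidableEq X]
variable {B : Submodule (ZMod 2) (X → K)} {e : X} {S : (X → K) → Finset X → Prop} {om : X → K}
  {M : X → X → ZMod 2}

/-- a closed pair whose word splits has a midpoint -/
theorem mid_of_split (hR : Rows B e om M) {a b : X} (h1 : M a a = M b b) (h2 : M a b ≠ M a a)
    {w : X → K} (hw : WordOf B e om M {a, b} w) {g : X} (hs : Splits B w g) :
    w g = 0 ∧ M g g = M a b ∧ M g a = M a b ∧ M g b = M a b ∧ ∀ v, M a v = M b v → M g v = M a v := by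
  obtain ⟨hab, _⟩ := pair_ne hR h1 h2
  obtain ⟨hwg, t, ht⟩ := split_half hR hw (pair_one hR.sym hab h1 h2) hs
  obtain ⟨e1, e2, e3⟩ := pair_half hR.sym hab h1 h2 ht
  have hg := (hw.zero_iff hR).1 hwg
  rw [Finset.sum_pair hab, t_add0] at hg
  have e4 := e3 g trivial hg.2
  refine ⟨hwg, ?_, e1, e2, fun v hv => e3 v trivial hv⟩
  rw [e4, hR.sym, e1]

/-- the main induction: an unsplit closed pair does not exist -/
theorem pairs_main (hR : Rows B e om M) (hS : RSides B e S) (n : ℕ) : ∀ (a b : X) (w : X → K)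
    (Y : Finset X), Y.card = n → M a a = M b b → M a b ≠ M a a → WordOf B e om M {a, b} w →
    S w Y → Y.Nonempty → (∀ g, ¬ Splits B w g) → False := by
  induction n using Nat.strong_induction_on with
  | _ n ih =>
    intro a b w Y hn h1 h2 hw hY hne hns
    have hs := hR.sym
    obtain ⟨hab, heT⟩ := pair_ne hR h1 h2
    have hwi := pair_irr hR h1 h2 hw
    have hzero : ∀ y ∈ Y, w y = 0 := hS.zero w Y hY
    have hYT : ∀ y ∈ Y, y ≠ a ∧ y ≠ b := by
      intro y hy
      have := ((hw.zero_iff hR).1 (hzero y hy)).1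
      simpa only [Finset.mem_insert, Finset.mem_singleton, not_or] using this
    have hown := fun y (hy : y ∈ Y) => pair_own hR hS h1 h2 hw hY hy
    have hwz : ∀ v, w v = 0 ↔ (v ≠ a ∧ v ≠ b) ∧ M a v = M b v := by
      intro v
      rw [hw.zero_iff hR, Finset.sum_pair hab, t_add0]
      simp only [Finset.mem_insert, Finset.mem_singleton, not_or]
    -- a place with the values of a midpoint is a zero of w
    have hgz : ∀ g, M g a = M a b → M g b = M a b → w g = 0 := by
      intro g g1 g2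
      rw [hwz]
      refine ⟨⟨?_, ?_⟩, ?_⟩
      · rintro rfl
        exact h2 g1.symm
      · rintro rfl
        exact h2 (g2.symm.trans h1.symm)
      · rw [hs a g, hs b g, g1, g2]
    -- words of even subsets of Y
    have hsub : ∀ (T : Finset X) (w' : X → K), T ⊆ Y → (∑ _x ∈ T, (1 : ZMod 2) = 0) →
        WordOf B e om M T w' → (∀ v, w v ≠ 0 → w' v = 0 ∨ w' v = w v) ∧
        ∀ v, w v = 0 → v ∉ Y → w' v = 0 := by
      intro T w' hT hTe hw'
      have hsum : ∀ (c : ZMod 2), ∑ _x ∈ T, c = 0 := by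
        intro c
        have : ∑ _x ∈ T, c = (∑ _x ∈ T, (1 : ZMod 2)) * c := by
          rw [Finset.sum_mul]
          simp
        rw [this, hTe, zero_mul]
      constructor
      · intro v hv
        have hvT : v ∉ T := fun h => hv (hzero v (hT h))
        by_cases hva : v = a
        · left
          rw [hw'.zero_iff hR]
          refine ⟨hvT, ?_⟩
          rw [hva, ← hsum (M a b)]
          exact Finset.sum_congr rfl fun x hx => (hown x (hT hx)).1
        · by_cases hvb : v = b
          · left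
            rw [hw'.zero_iff hR]
            refine ⟨hvT, ?_⟩
            rw [hvb, ← hsum (M a b)]
            exact Finset.sum_congr rfl fun x hx => (hown x (hT hx)).2.1
          · have hvab : v ∉ ({a, b} : Finset X) := by
              simp [hva, hvb]
            rw [hw.eq_om hR hvab hv]
            exact (kf_om (hR.om1 v)).1 (hw'.tau0 v hvT)
      · intro v hv hvY
        rw [hw'.zero_iff hR]
        refine ⟨fun h => hvY (hT h), ?_⟩
        rw [← hsum (M a v)]
        exact Finset.sum_congr rfl fun x hx => (hown x (hT hx)).2.2 v hvY ((hwz v).1 hv).2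
    -- splitting places are in Y
    have hinY : ∀ (w' : X → K), (∀ v, w v ≠ 0 → w' v = 0 ∨ w' v = w v) →
        (∀ v, w v = 0 → v ∉ Y → w' v = 0) → ∀ g, Splits B w' g → w g = 0 → g ∈ Y := by
      intro w' hle hz g hsp hg
      by_contra hgY
      exact hns g (kpart hS hw.mem hY hle hz hsp hg hgY)
    -- pairs inside Y
    have hpY : ∀ u ∈ Y, ∀ v ∈ Y, M u u = M v v → M u v ≠ M u u →
        ∃ g ∈ Y, M g g ≠ M u u ∧ M g u = M g g ∧ M g v = M g g ∧
          ∀ x, M u x = M v x → M g x = M u x := by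
      intro u hu v hv k1 k2
      obtain ⟨huv, _⟩ := pair_ne hR k1 k2
      obtain ⟨w', hw'⟩ := pair_word hR k1 k2
      have hT : ({u, v} : Finset X) ⊆ Y := by
        intro x hx
        simp only [Finset.mem_insert, Finset.mem_singleton] at hx
        rcases hx with rfl | rfl
        · exact hu
        · exact hv
      obtain ⟨l1, l2⟩ := hsub _ w' hT (by rw [Finset.sum_pair huv]; decide) hw'
      have hspl : ∃ g, Splits B w' g := by
        rcases hS.mono w Y hY hwi w' hw'.mem (hw'.zfree hR (pair_one hs huv k1 k2))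
          (word_ne hR ⟨u, by simp⟩ hw') (pair_irr hR k1 k2 hw') l1 l2 with h | ⟨Y', y1, y2, y3⟩
        · exact h
        · by_contra hno
          push Not at hno
          have huY' : u ∉ Y' := by
            intro h
            have := hS.zero w' Y' y3 u h
            exact ((hw'.zero_iff hR).1 this).1 (by simp)
          have hlt : Y'.card < n := by
            rw [← hn]
            exact Finset.card_lt_card ⟨y1, fun h => huY' (h hu)⟩
          exact ih _ hlt u v w' Y' rfl k1 k2 hw' y3 y2 hno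
      obtain ⟨g, hg⟩ := hspl
      obtain ⟨_, g1, g2, g3, g4⟩ := mid_of_split hR k1 k2 hw' hg
      have g5 : M g a = M a b := by
        rw [g4 a (by rw [(hown u hu).1, (hown v hv).1]), (hown u hu).1]
      have g6 : M g b = M a b := by
        rw [g4 b (by rw [(hown u hu).2.1, (hown v hv).2.1]), (hown u hu).2.1]
      refine ⟨g, hinY w' l1 l2 g hg (hgz g g5 g6), ?_, ?_, ?_, g4⟩
      · rw [g1]
        exact k2
      · rw [g1, g2]
      · rw [g1, g3]
    -- paths inside Y
    have hqY : ∀ p ∈ Y, ∀ q ∈ Y, ∀ r ∈ Y, ∀ s ∈ Y, IsP4 M p q r s → M p p = 0 → M q q = 1 →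
        M r r = 1 → M s s = 0 → ∃ g ∈ Y, Bad M p q r s g ∧
          ∀ x ∈ Y, M p x = M q x → M p x = M r x → M p x = M s x → M g x = M p x := by
      intro p hp q hq r hr s hs' k4 kp kq kr ks
      obtain ⟨w', hw'⟩ := p4_word hR k4 kp kq kr ks
      have hT : ({p, q, r, s} : Finset X) ⊆ Y := by
        intro x hx
        simp only [Finset.mem_insert, Finset.mem_singleton] at hx
        rcases hx with rfl | rfl | rfl | rfl
        exacts [hp, hq, hr, hs']
      obtain ⟨l1, l2⟩ := hsub _ w' hT (by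
        rw [sum_four (p4_dist hs k4 kp kq kr ks)]; decide) hw'
      rcases hS.mono w Y hY hwi w' hw'.mem (hw'.zfree hR (p4_one hs k4 kp kq kr ks))
        (word_ne hR ⟨p, by simp⟩ hw') (p4_irr hR k4 kp kq kr ks hw') l1 l2 with
        ⟨g, hg⟩ | ⟨Y', y1, ⟨y, hy⟩, y3⟩
      · obtain ⟨_, t, ht⟩ := split_half hR hw' (p4_one hs k4 kp kq kr ks) hg
        obtain ⟨b1, b2⟩ := p4_half hs k4 kp kq kr ks ht
        have g5 : M g a = M a b := by
          rw [b2 a trivial (by rw [(hown p hp).1, (hown q hq).1])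
            (by rw [(hown p hp).1, (hown r hr).1]) (by rw [(hown p hp).1, (hown s hs').1]),
            (hown p hp).1]
        have g6 : M g b = M a b := by
          rw [b2 b trivial (by rw [(hown p hp).2.1, (hown q hq).2.1])
            (by rw [(hown p hp).2.1, (hown r hr).2.1])
            (by rw [(hown p hp).2.1, (hown s hs').2.1]), (hown p hp).2.1]
        exact ⟨g, hinY w' l1 l2 g hg (hgz g g5 g6), b1, fun x _ => b2 x trivial⟩
      · obtain ⟨b1, b2⟩ := p4_own hR hS k4 kp kq kr ks hw' y3 hy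
        refine ⟨y, y1 hy, b1, ?_⟩
        intro x _ x1 x2 x3
        by_cases hx : x ∈ Y'
        · exfalso
          obtain ⟨⟨c1, _⟩, _⟩ := p4_own hR hS k4 kp kq kr ks hw' y3 hx
          exact c1 (by rw [hs x p, hs x s, x3])
        · exact b2 x hx x1 x2 x3
    -- no paths inside Y
    have hfree : ∀ a b c d : {x // x ∈ Y}, ¬ IsP4 (fun x y : {x // x ∈ Y} => M x.1 y.1) a b c d := by
      apply Pool.Agent.H62.Ind.p3 {x // x ∈ Y} (fun x y => M x.1 y.1) (fun x y => hs _ _)
      · intro u v k1 k2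
        obtain ⟨g, hg, g1, g2, g3, g4⟩ := hpY u.1 u.2 v.1 v.2 k1 k2
        exact ⟨⟨g, hg⟩, g1, g2, g3, fun x hx => g4 x.1 hx⟩
      · intro p q r s k4 kp kq kr ks
        obtain ⟨g, hg, g1, g2⟩ := hqY p.1 p.2 q.1 q.2 r.1 r.2 s.1 s.2
          ⟨k4.ab, k4.bc, k4.cd, k4.ac, k4.ad, k4.bd⟩ kp kq kr ks
        exact ⟨⟨g, hg⟩, g1, fun x => g2 x.1 x.2⟩
    -- a root of Y
    have hroot : ∃ r ∈ Y, ∃ l : ZMod 2, ∀ x ∈ Y, M r x = l := by
      rcases Pool.Agent.H33.CG.claimA M hs Y (by
          intro a ha b hb c hc d hd hh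
          obtain ⟨q1, q2, q3, q4, q5, q6⟩ := hh
          exact hfree ⟨a, ha⟩ ⟨b, hb⟩ ⟨c, hc⟩ ⟨d, hd⟩ ⟨q1, q2, q3, q4, q5, q6⟩) (by
          intro u hu v hv k1 k2
          obtain ⟨g, hg, g1, g2, g3, g4⟩ := hpY u hu v hv k1 k2
          exact ⟨g, hg, g1, g2, g3, fun x _ => g4 x⟩) hne with ⟨r, hr, h⟩ | ⟨r, hr, h⟩
      · exact ⟨r, hr, 0, h⟩
      · exact ⟨r, hr, 1, h⟩
    obtain ⟨r, hr, l, hl⟩ := hroot
    obtain ⟨r1, r2, r3⟩ := hown r hr
    have hra : r ≠ a := (hYT r hr).1
    have hrb : r ≠ b := (hYT r hr).2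
    have heR : e ∉ ({r, a} : Finset X) := by
      intro h
      simp only [Finset.mem_insert, Finset.mem_singleton] at h
      rcases h with h | h
      · exact hS.root w Y hY (h ▸ hr)
      · exact heT (by simp [h])
    obtain ⟨w', hw'⟩ := exists_word hR heR (by rw [Finset.sum_pair hra]; decide)
    have hw'z : ∀ v, w' v = 0 ↔ (v ≠ r ∧ v ≠ a) ∧ M r v = M a v := by
      intro v
      rw [hw'.zero_iff hR, Finset.sum_pair hra, t_add0]
      simp only [Finset.mem_insert, Finset.mem_singleton, not_or]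
    have l1 : ∀ v, w v ≠ 0 → w' v = 0 ∨ w' v = w v := by
      intro v hv
      have hvr : v ≠ r := fun h => hv (h ▸ hzero r hr)
      by_cases hva : v = a
      · right
        rw [hva]
        apply eq_of_pair (hR.om1 a)
        · rw [hw'.fst, hw.fst, Finset.sum_pair hra, Finset.sum_pair hab, r1, hs b a, add_comm]
        · rw [hw'.tau a (by simp), hw.tau a (by simp)]
      · by_cases hvb : v = b
        · left
          rw [hvb, hw'z]
          exact ⟨⟨Ne.symm hrb, Ne.symm hab⟩, r2⟩
        · rw [hw.eq_om hR (by simp [hva, hvb]) hv]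
          exact (kf_om (hR.om1 v)).1 (hw'.tau0 v (by simp [hvr, hva]))
    have l2 : ∀ v, w v = 0 → v ∉ Y → w' v = 0 := by
      intro v hv hvY
      rw [hw'z]
      exact ⟨⟨fun h => hvY (h ▸ hr), ((hwz v).1 hv).1.1⟩, r3 v hvY ((hwz v).1 hv).2⟩
    rcases t_lm _ _ l h2 with hlam | hlam
    · -- the word of r and a is a half of w at r
      apply hns r
      have hr' : w' r = z := by
        apply z_of_pair (hR.om1 r)
        · rw [hw'.fst, Finset.sum_pair hra, hl r hr, hs a r, r1, hlam]
          exact t_self _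
        · exact hw'.tau r (by simp)
      refine ⟨w', hw'.mem, w + w', B.add_mem hw.mem hw'.mem, ?_, hr', ?_, ?_⟩
      · rw [← add_assoc, add_comm w' w, add_assoc, w_add_self, add_zero]
      · rw [Pi.add_apply, hzero r hr, hr', zero_add]
      · intro v hvr
        by_cases hv : w v = 0
        · left
          by_cases hvY : v ∈ Y
          · rw [hw'z]
            refine ⟨⟨hvr, (hYT v hvY).1⟩, ?_⟩
            rw [hl v hvY, hs a v, (hown v hvY).1, hlam]
          · exact l2 v hv hvY
        · rcases l1 v hv with h | h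
          · exact Or.inl h
          · right
            rw [Pi.add_apply, h, k_add_self]
    · -- {r, a} is a closed pair without own places
      have k1 : M r r = M a a := by rw [hl r hr, hlam]
      have k2 : M r a ≠ M r r := by rw [r1, k1]; exact h2
      rcases hS.mono w Y hY hwi w' hw'.mem (hw'.zfree hR (pair_one hs hra k1 k2))
        (word_ne hR ⟨r, by simp⟩ hw') (pair_irr hR k1 k2 hw') l1 l2 with
        ⟨g, hg⟩ | ⟨Y', y1, ⟨y, hy⟩, y3⟩
      · obtain ⟨g0, g1, g2, g3, g4⟩ := mid_of_split hR k1 k2 hw' hg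
        have g5 : M g a = M a b := by rw [g3, r1]
        have g6 : M g b = M a b := by rw [g4 b r2, r2]
        have hgY := hinY w' l1 l2 g hg (hgz g g5 g6)
        have := ((hw'z g).1 g0).2
        rw [hl g hgY, hlam, hs a g, g5] at this
        exact h2 this.symm
      · have hyY := y1 hy
        have := ((hw'z y).1 (hS.zero w' Y' y3 y hy)).2
        rw [hl y hyY, hlam, hs a y, (hown y hyY).1] at this
        exact h2 this.symm

/-- **(PAIRS)** -/
theorem pairs (hR : Rows B e om M) (hS : RSides B e S) : Pairs M := by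
  intro u v h1 h2
  obtain ⟨huv, _⟩ := pair_ne hR h1 h2
  obtain ⟨w, hw⟩ := pair_word hR h1 h2
  have hspl : ∃ g, Splits B w g := by
    rcases hS.ex w hw.mem (hw.zfree hR (pair_one hR.sym huv h1 h2)) hw.we
      (word_ne hR ⟨u, by simp⟩ hw) (pair_irr hR h1 h2 hw) with h | ⟨Y, y1, y2⟩
    · exact h
    · by_contra hno
      push Not at hno
      exact pairs_main hR hS _ u v w Y rfl h1 h2 hw y2 y1 hno
  obtain ⟨g, hg⟩ := hspl
  obtain ⟨_, g1, g2, g3, g4⟩ := mid_of_split hR h1 h2 hw hg
  refine ⟨g, ?_, ?_, ?_, g4⟩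
  · rw [g1]
    exact h2
  · rw [g1, g2]
  · rw [g1, g3]

/-- **(P4)** -/
theorem p4s (hR : Rows B e om M) (hS : RSides B e S) : P4Split M := by
  intro a b c d h4 ha hb hc hd
  have hs := hR.sym
  obtain ⟨w, hw⟩ := p4_word hR h4 ha hb hc hd
  rcases hS.ex w hw.mem (hw.zfree hR (p4_one hs h4 ha hb hc hd)) hw.we
    (word_ne hR ⟨a, by simp⟩ hw) (p4_irr hR h4 ha hb hc hd hw) with ⟨g, hg⟩ | ⟨Y, ⟨y, hy⟩, y2⟩
  · obtain ⟨_, t, ht⟩ := split_half hR hw (p4_one hs h4 ha hb hc hd) hg
    obtain ⟨b1, b2⟩ := p4_half hs h4 ha hb hc hd ht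
    exact ⟨g, b1, fun x => b2 x trivial⟩
  · obtain ⟨b1, b2⟩ := p4_own hR hS h4 ha hb hc hd hw y2 hy
    refine ⟨y, b1, ?_⟩
    intro x x1 x2 x3
    by_cases hx : x ∈ Y
    · exfalso
      obtain ⟨⟨c1, _⟩, _⟩ := p4_own hR hS h4 ha hb hc hd hw y2 hx
      exact c1 (by rw [hs x a, hs x d, x3])
    · exact b2 x hx x1 x2 x3

end

/-- **the matrix of a rooted code with sides** -/
theorem exists_M_of_rsides {X : Type} [Fintype X] [DecidableEq X]
    (B : Submodule (ZMod 2) (X → K)) (e : X) (H : X → X → ZMod 2)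
    (S : (X → K) → Finset X → Prop) (hB : IsCode B) (hH : IsMat B H) (hS : RSides B e S) :
    ∃ M : X → X → ZMod 2, (∀ x y, M x y = M y x) ∧ (∀ x, M e x = 0) ∧
      (∀ u, u ≠ e → ∀ v, (∑ w, H u w * (M u v + M w v)) = if u = v then 1 else 0) ∧
      Pairs M ∧ P4Split M := by
  obtain ⟨M, hR, hinv⟩ := exists_rows hB hH hS
  exact ⟨M, hR.sym, hR.z0, hinv, pairs hR hS, p4s hR hS⟩

end Pool.Agent.H90.Full
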