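import Pool.Agent.H90.Full.Rows

set_option autoImplicit false

/-!
Rooted codes with sides (MP_a46c6f_co, full Q1): halves of closed sets, parts inside a side.
-/

namespace Pool.Agent.H90.Full

open Pool.Agent.H98.Code Pool.Agent.H17.TR Pool.Agent.H17.P3 Pool.Agent.H77.Q Pool.Agent.H98.TR

/-- `t` is a half of the closed set `T` at `g`, seen from the places with `Z` -/
structure Half {X : Type} (M : X → X → ZMod 2) (T : Finset X) (Z : X → Prop) (g : X)
    (t : X → ZMod 2) : Prop where
  odd : ∑ x ∈ T, t x = 1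
  one : ∀ v ∈ T, ∑ x ∈ T, t x * M x v + M g v = t v
  zero : ∀ v, Z v → v ∉ T → ∑ x ∈ T, M x v = 0 → ∑ x ∈ T, t x * M x v + M g v = 0

/-- `w` is the word of the even set `T` -/
structure WordOf {X : Type} (B : Submodule (ZMod 2) (X → K)) (e : X) (om : X → K)
    (M : X → X → ZMod 2) (T : Finset X) (w : X → K) : Prop where
  mem : w ∈ B
  we : w e = 0
  fst : ∀ v, (w v).1 = ∑ x ∈ T, M x v
  tau : ∀ v, v ∈ T → kf (w v) (om v) = 1
  tau0 : ∀ v, v ∉ T → kf (w v) (om v) = 0

section
variable {X : Type} [Fintype X] [DecidableEq X]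
variable {B : Submodule (ZMod 2) (X → K)} {e : X} {S : (X → K) → Finset X → Prop} {om : X → K}
  {M : X → X → ZMod 2}

theorem sum_ite_T (T : Finset X) (f : X → ZMod 2) :
    ∑ x, (if x ∈ T then f x else 0) = ∑ x ∈ T, f x := by
  rw [Finset.sum_ite_mem, Finset.univ_inter]

/-- words of even sets -/
theorem exists_word (hR : Rows B e om M) {T : Finset X} (he : e ∉ T)
    (hT : ∑ _x ∈ T, (1 : ZMod 2) = 0) : ∃ w, WordOf B e om M T w := by
  obtain ⟨w, hw, h1, h2⟩ := hR.mem (fun x => if x ∈ T then 1 else 0) (if_neg he)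
  have h3 : ∀ v, (w v).1 = ∑ x ∈ T, M x v := by
    intro v
    rw [h1, ← sum_ite_T T]
    refine Finset.sum_congr rfl fun x _ => ?_
    by_cases hx : x ∈ T
    · simp [hx]
    · simp [hx]
  have h4 : kf (w e) (om e) = 0 := by
    have h5 := hR.par w hw
    have h6 : ∀ v, kf (w v) (om v) = (if v = e then kf (w e) (om e) else 0) +
        (if v ∈ T then 1 else 0) := by
      intro v
      by_cases hv : v = e
      · rw [hv]
        simp [he]
      · rw [h2 v hv]
        simp [hv]
    rw [Finset.sum_congr rfl fun v _ => h6 v, Finset.sum_add_distrib, sum_ite_T, hT,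
      Finset.sum_ite_eq'] at h5
    simpa using h5
  have h7 : w e = 0 := by
    apply zero_of_pair (hR.om1 e) _ h4
    rw [h3]
    apply Finset.sum_eq_zero
    intro x _
    rw [hR.sym, hR.z0]
  refine ⟨w, hw, h7, h3, ?_, ?_⟩
  · intro v hv
    rw [h2 v (fun h => he (h ▸ hv)), if_pos hv]
  · intro v hv
    by_cases hve : v = e
    · rw [hve]
      exact h4
    · rw [h2 v hve, if_neg hv]

theorem WordOf.zero_iff (hR : Rows B e om M) {T : Finset X} {w : X → K} (hw : WordOf B e om M T w)
    {v : X} : w v = 0 ↔ v ∉ T ∧ ∑ x ∈ T, M x v = 0 := by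
  constructor
  · intro h
    refine ⟨fun hv => ?_, ?_⟩
    · have := hw.tau v hv
      rw [h, kf_zero_left] at this
      exact one_ne this.symm
    · rw [← hw.fst, h]
      rfl
  · rintro ⟨h1, h2⟩
    exact zero_of_pair (hR.om1 v) ((hw.fst v).trans h2) (hw.tau0 v h1)

theorem WordOf.eq_om (hR : Rows B e om M) {T : Finset X} {w : X → K} (hw : WordOf B e om M T w)
    {v : X} (hv : v ∉ T) (h : w v ≠ 0) : w v = om v := by
  rcases (kf_om (hR.om1 v)).1 (hw.tau0 v hv) with h' | h'
  · exact absurd h' h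
  · exact h'

theorem WordOf.zfree (hR : Rows B e om M) {T : Finset X} {w : X → K} (hw : WordOf B e om M T w)
    (h1 : ∀ v ∈ T, ∑ x ∈ T, M x v = 1) : ZFree w := by
  intro v h
  by_cases hv : v ∈ T
  · have := hw.fst v
    rw [h, h1 v hv] at this
    exact absurd this (by decide)
  · have := hw.tau0 v hv
    rw [h, kf_z_om (hR.om1 v)] at this
    exact one_ne this

/-- the common form of halves -/
theorem half_of (hR : Rows B e om M) {T : Finset X} {w : X → K} (hw : WordOf B e om M T w)
    (hw1 : ∀ v ∈ T, ∑ x ∈ T, M x v = 1) {c : X → K} (hc : c ∈ B) (hce : (c e).1 = 0) {g : X}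
    (hgT : g ∉ T) (hct : ∀ v, v ∉ T → kf (c v) (om v) = if v = g then 1 else 0)
    (hcT : ∀ v ∈ T, c v = 0 ∨ c v = w v) {Z : X → Prop} (hcz : ∀ v, Z v → w v = 0 → (c v).1 = 0) :
    Half M T Z g (fun v => kf (c v) (om v)) := by
  have h1 : ∀ v, (c v).1 = ∑ x ∈ T, kf (c x) (om x) * M x v + M g v := by
    intro v
    rw [hR.uniq c hc hce (fun v => if v = e then 0 else kf (c v) (om v)) (if_pos rfl)
      (fun v hv => (if_neg hv).symm) v, ← sum_ite_T T]
    have h3 : M g v = ∑ x, (if x = g then M g v else 0) := by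
      rw [Finset.sum_ite_eq']
      simp
    rw [h3, ← Finset.sum_add_distrib]
    refine Finset.sum_congr rfl fun x _ => ?_
    by_cases hxe : x = e
    · rw [hxe, if_pos rfl, zero_mul, hR.z0, mul_zero]
      by_cases hge : e = g
      · rw [← hge, hR.z0]
        simp
      · rw [if_neg hge]
        simp
    · rw [if_neg hxe]
      by_cases hxT : x ∈ T
      · rw [if_pos hxT, if_neg (fun hh : x = g => hgT (hh ▸ hxT)), add_zero]
      · rw [if_neg hxT, hct x hxT]
        by_cases hxg : x = g
        · rw [hxg, if_pos rfl, if_pos rfl, one_mul, zero_add]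
        · rw [if_neg hxg, if_neg hxg, zero_mul, add_zero]
  refine ⟨?_, ?_, ?_⟩
  · have h2 := hR.par c hc
    have h3 : ∀ v, kf (c v) (om v) = (if v ∈ T then kf (c v) (om v) else 0) +
        (if v = g then 1 else 0) := by
      intro v
      by_cases hvT : v ∈ T
      · rw [if_pos hvT, if_neg (fun hh : v = g => hgT (hh ▸ hvT)), add_zero]
      · rw [if_neg hvT, hct v hvT, zero_add]
    rw [Finset.sum_congr rfl fun v _ => h3 v, Finset.sum_add_distrib, sum_ite_T,
      Finset.sum_ite_eq'] at h2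
    simp only [Finset.mem_univ, if_true] at h2
    exact CharTwo.add_eq_zero.1 h2
  · intro v hv
    rw [← h1 v]
    rcases hcT v hv with h | h
    · simp only [h, kf_zero_left]
      rfl
    · simp only [h]
      rw [hw.tau v hv, hw.fst, hw1 v hv]
  · intro v hZ hv h0
    rw [← h1 v]
    exact hcz v hZ ((hw.zero_iff hR).2 ⟨hv, h0⟩)

/-- a splitting gives a half -/
theorem split_half (hR : Rows B e om M) {T : Finset X} {w : X → K} (hw : WordOf B e om M T w)
    (hw1 : ∀ v ∈ T, ∑ x ∈ T, M x v = 1) {g : X} (hs : Splits B w g) :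
    w g = 0 ∧ ∃ t, Half M T (fun _ => True) g t := by
  obtain ⟨c₁, h1, c₂, h2, h3, h4, h5, h6⟩ := hs
  have hwg : w g = 0 := by
    rw [← h3, Pi.add_apply, h4, h5]
    decide
  have hgT : g ∉ T := ((hw.zero_iff hR).1 hwg).1
  have hle : ∀ v, v ≠ g → c₁ v = 0 ∨ c₁ v = w v := by
    intro v hv
    rcases h6 v hv with h | h
    · exact Or.inl h
    · right
      rw [← h3, Pi.add_apply, h, add_zero]
  refine ⟨hwg, _, half_of hR hw hw1 h1 ?_ hgT ?_ ?_ ?_⟩
  · by_cases hge : e = g
    · rw [hge, h4]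
      rfl
    · rcases hle e hge with h | h
      · rw [h]
        rfl
      · rw [h, hw.we]
        rfl
  · intro v hv
    by_cases hvg : v = g
    · rw [hvg, h4, if_pos rfl, kf_z_om (hR.om1 g)]
    · rw [if_neg hvg]
      rcases hle v hvg with h | h
      · rw [h, kf_zero_left]
      · rw [h, hw.tau0 v hv]
  · intro v hv
    exact hle v (fun h => hgT (h ▸ hv))
  · intro v _ hv
    by_cases hvg : v = g
    · rw [hvg, h4]
      rfl
    · rcases hle v hvg with h | h
      · rw [h]
        rfl
      · rw [h, hv]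
        rfl

/-- a part inside a side gives a half -/
theorem part_half (hR : Rows B e om M) (hS : RSides B e S) {T : Finset X} {w : X → K}
    (hw : WordOf B e om M T w) (hw1 : ∀ v ∈ T, ∑ x ∈ T, M x v = 1) {Y : Finset X} (h : S w Y)
    {y : X} (hy : y ∈ Y) {q : X → K} (hq : q ∈ B) (hqT : ∀ v ∈ T, (q v).1 = kf (q v) (om v))
    (hq0 : ∀ v, v ∉ T → v ≠ e → kf (q v) (om v) = if v = y then 1 else 0) :
    ∃ t, Half M T (fun v => v ∉ Y) y t := by
  have hwy : w y = 0 := hS.zero w Y h y hy
  have hyT : y ∉ T := ((hw.zero_iff hR).1 hwy).1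
  have hye : y ≠ e := fun hh => hS.root w Y h (hh ▸ hy)
  obtain ⟨k, hk, k1, k2, k3⟩ := hS.part w Y h q hq (fun v hv => by
    have hve : v ≠ e := fun hh => hv (hh ▸ hw.we)
    have hvy : v ≠ y := fun hh => hv (hh ▸ hwy)
    by_cases hvT : v ∈ T
    · rcases z01 (kf (q v) (om v)) with h' | h'
      · left
        exact zero_of_pair (hR.om1 v) ((hqT v hvT).trans h') h'
      · right
        apply eq_of_pair (hR.om1 v)
        · rw [hqT v hvT, h', hw.fst, hw1 v hvT]
        · rw [h', hw.tau v hvT]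
    · rw [hw.eq_om hR hvT hv]
      have := hq0 v hvT hve
      rw [if_neg hvy] at this
      exact (kf_om (hR.om1 v)).1 this)
  have hke : k e = 0 := k2 e hw.we (hS.root w Y h)
  refine ⟨_, half_of hR hw hw1 hk (by rw [hke]; rfl) hyT ?_ ?_ ?_⟩
  · intro v hv
    by_cases hvY : v ∈ Y
    · rw [k1 v hvY]
      exact hq0 v hv (fun hh => hS.root w Y h (hh ▸ hvY))
    · have hvy : v ≠ y := fun hh => hvY (hh ▸ hy)
      rw [if_neg hvy]
      by_cases hwv : w v = 0
      · rw [k2 v hwv hvY, kf_zero_left]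
      · rcases k3 v hwv with h' | h'
        · rw [h', kf_zero_left]
        · rw [h', hw.tau0 v hv]
  · intro v hv
    exact k3 v (fun h' => ((hw.zero_iff hR).1 h').1 hv)
  · intro v hvY hwv
    rw [k2 v hwv hvY]
    rfl

/-- the part outside the side gives a splitting -/
theorem kpart (hS : RSides B e S) {w : X → K} (hw : w ∈ B) {Y : Finset X} (h : S w Y)
    {w' : X → K} (hle : ∀ v, w v ≠ 0 → w' v = 0 ∨ w' v = w v)
    (hz : ∀ v, w v = 0 → v ∉ Y → w' v = 0) {g : X} (hs : Splits B w' g) (hg : w g = 0)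
    (hgY : g ∉ Y) : Splits B w g := by
  obtain ⟨c₁, h1, c₂, h2, h3, h4, h5, h6⟩ := hs
  have hle' : ∀ v, v ≠ g → c₁ v = 0 ∨ c₁ v = w' v := by
    intro v hv
    rcases h6 v hv with h | h
    · exact Or.inl h
    · right
      rw [← h3, Pi.add_apply, h, add_zero]
  have hlew : ∀ v, w v ≠ 0 → c₁ v = 0 ∨ c₁ v = w v := by
    intro v hv
    rcases hle' v (fun hh => hv (hh ▸ hg)) with h' | h'
    · exact Or.inl h'
    · rw [h']
      exact hle v hv
  obtain ⟨k, hk, k1, k2, k3⟩ := hS.part w Y h c₁ h1 hlew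
  have hkg : k g = 0 := k2 g hg hgY
  refine ⟨c₁ + k, B.add_mem h1 hk, w + (c₁ + k), B.add_mem hw (B.add_mem h1 hk), ?_, ?_, ?_, ?_⟩
  · rw [← add_assoc, add_comm (c₁ + k) w, add_assoc, w_add_self, add_zero]
  · rw [Pi.add_apply, h4, hkg, add_zero]
  · rw [Pi.add_apply, hg, Pi.add_apply, h4, hkg, add_zero, zero_add]
  · intro v hv
    by_cases hwv : w v = 0
    · left
      rw [Pi.add_apply]
      by_cases hvY : v ∈ Y
      · rw [k1 v hvY, k_add_self]
      · rw [k2 v hwv hvY, add_zero]
        rcases hle' v hv with h' | h'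
        · exact h'
        · rw [h']
          exact hz v hwv hvY
    · rcases hlew v hwv with h' | h'
      · rcases k3 v hwv with h'' | h''
        · left
          rw [Pi.add_apply, h', h'', add_zero]
        · right
          rw [Pi.add_apply, Pi.add_apply, h', h'', zero_add, k_add_self]
      · rcases k3 v hwv with h'' | h''
        · right
          rw [Pi.add_apply, Pi.add_apply, h', h'', add_zero, k_add_self]
        · left
          rw [Pi.add_apply, h', h'', k_add_self]

/-- irreducible words -/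
theorem irr_of (hR : Rows B e om M) {T : Finset X} {w : X → K} (hw : WordOf B e om M T w)
    (hT : ∀ p : X → ZMod 2, ∑ x ∈ T, p x = 0 → (∀ v ∈ T, ∑ x ∈ T, p x * M x v = p v) →
      (∀ v ∈ T, p v = 0) ∨ ∀ v ∈ T, p v = 1)
    (hw1 : ∀ v ∈ T, ∑ x ∈ T, M x v = 1) : Irr B w := by
  intro d hd hle
  have hde : d e = 0 := by
    rcases hle e with h | h
    · exact h
    · exact h.trans hw.we
  have ht0 : ∀ v, v ∉ T → kf (d v) (om v) = 0 := by
    intro v hv
    rcases hle v with h | h
    · rw [h, kf_zero_left]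
    · rw [h, hw.tau0 v hv]
  have h1 : ∀ v, (d v).1 = ∑ x ∈ T, kf (d x) (om x) * M x v := by
    intro v
    rw [hR.uniq d hd (by rw [hde]; rfl) (fun v => if v = e then 0 else kf (d v) (om v)) (if_pos rfl)
      (fun v hv => (if_neg hv).symm) v, ← sum_ite_T T]
    refine Finset.sum_congr rfl fun x _ => ?_
    by_cases hxe : x = e
    · rw [hxe, if_pos rfl, zero_mul, hR.z0, mul_zero]
      simp
    · rw [if_neg hxe]
      by_cases hxT : x ∈ T
      · rw [if_pos hxT]
      · rw [if_neg hxT, ht0 x hxT, zero_mul]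
  have h2 : ∑ x ∈ T, kf (d x) (om x) = 0 := by
    have h5 := hR.par d hd
    have h6 : ∀ x, kf (d x) (om x) = if x ∈ T then kf (d x) (om x) else 0 := by
      intro x
      by_cases hxT : x ∈ T
      · rw [if_pos hxT]
      · rw [if_neg hxT, ht0 x hxT]
    rw [Finset.sum_congr rfl fun x _ => h6 x, sum_ite_T] at h5
    exact h5
  rcases hT (fun x => kf (d x) (om x)) h2 (fun v hv => by
      rw [← h1 v]
      rcases hle v with h | h
      · simp only [h, kf_zero_left]
        rfl
      · simp only [h]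
        rw [hw.tau v hv, hw.fst, hw1 v hv]) with h3 | h3
  · left
    apply hR.ker d hd hde
    intro v
    by_cases hv : v ∈ T
    · exact h3 v hv
    · exact ht0 v hv
  · right
    have h4 : d + w = 0 := by
      apply hR.ker _ (B.add_mem hd hw.mem)
      · rw [Pi.add_apply, hde, hw.we, add_zero]
      · intro v
        rw [Pi.add_apply, kf_add_left]
        by_cases hv : v ∈ T
        · have h5 : kf (d v) (om v) = 1 := h3 v hv
          rw [h5, hw.tau v hv]
          decide
        · rw [ht0 v hv, hw.tau0 v hv, add_zero]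
    rw [w_add_eq_iff, zero_add] at h4
    exact h4

end

end Pool.Agent.H90.Full
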