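import Pool.Agent.H90.Full.Half

set_option autoImplicit false

/-!
Rooted codes with sides (MP_a46c6f_co, full Q1): closed pairs have midpoints and closed paths have
bad points.
-/

namespace Pool.Agent.H90.Full

open Pool.Agent.H98.Code Pool.Agent.H17.TR Pool.Agent.H17.P3 Pool.Agent.H77.Q Pool.Agent.H98.TR

/-! ### small tables -/

theorem t_pair : ∀ ta tb m l ga gb : ZMod 2, l ≠ m → ta + tb = 1 →
    ta * m + tb * l + ga = ta → ta * l + tb * m + gb = tb → ga = l ∧ gb = l := by decide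

theorem t_pairv : ∀ ta tb a g : ZMod 2, ta + tb = 1 → ta * a + tb * a + g = 0 → g = a := by decide

theorem t_p4 : ∀ ta tb tc td ga gb gc gd : ZMod 2, ta + (tb + (tc + td)) = 1 →
    tb + ga = ta → ta + tb + tc + gb = tb → tb + tc + td + gc = tc → tc + gd = td →
    ga ≠ gd ∧ gb ≠ gc := by decide

theorem t_p4v : ∀ ta tb tc td a g : ZMod 2, ta + (tb + (tc + td)) = 1 →
    ta * a + (tb * a + (tc * a + td * a)) + g = 0 → g = a := by decide

theorem t_p4i : ∀ pa pb pc pd : ZMod 2, pb = pa → pa + pb + pc = pb → pb + pc + pd = pc →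
    pc = pd → (pa = 0 ∧ pb = 0 ∧ pc = 0 ∧ pd = 0) ∨ (pa = 1 ∧ pb = 1 ∧ pc = 1 ∧ pd = 1) := by
  decide

theorem t_pairi : ∀ pa pb : ZMod 2, pa + pb = 0 → (pa = 0 ∧ pb = 0) ∨ (pa = 1 ∧ pb = 1) := by
  decide

theorem t_p4j : ∀ ya yb yc yd : ZMod 2, ya + (yb + (yc + yd)) = 0 → ∃ ja jb jc jd : ZMod 2,
    ya + jb = ja ∧ yb + (ja + jb + jc) = jb ∧ yc + (jb + jc + jd) = jc ∧ yd + jc = jd := by
  decide

theorem t_cl : ∀ m l : ZMod 2, l ≠ m → m + l = 1 := by decide

theorem t_add0 : ∀ a b : ZMod 2, a + b = 0 ↔ a = b := by decide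

theorem t_self : ∀ a : ZMod 2, a + a = 0 := by decide

theorem kf_smul_self : ∀ (k : ZMod 2) (o : K), kf (k • o) o = 0 := by decide

section
variable {X : Type} [DecidableEq X] {M : X → X → ZMod 2}

/-! ### pairs -/

theorem pair_one (hs : ∀ x y, M x y = M y x) {a b : X} (hab : a ≠ b) (h1 : M a a = M b b)
    (h2 : M a b ≠ M a a) : ∀ v ∈ ({a, b} : Finset X), ∑ x ∈ ({a, b} : Finset X), M x v = 1 := by
  intro v hv
  rw [Finset.sum_pair hab]
  simp only [Finset.mem_insert, Finset.mem_singleton] at hv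
  rcases hv with rfl | rfl
  · rw [hs b v]
    exact t_cl _ _ h2
  · rw [← h1, add_comm]
    exact t_cl _ _ h2

theorem pair_half (hs : ∀ x y, M x y = M y x) {a b : X} (hab : a ≠ b) (h1 : M a a = M b b)
    (h2 : M a b ≠ M a a) {Z : X → Prop} {g : X} {t : X → ZMod 2}
    (h : Half M ({a, b} : Finset X) Z g t) :
    M g a = M a b ∧ M g b = M a b ∧ ∀ v, Z v → M a v = M b v → M g v = M a v := by
  have e1 := h.odd
  have e2 := h.one a (by simp)
  have e3 := h.one b (by simp)
  rw [Finset.sum_pair hab] at e1 e2 e3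
  rw [hs b a] at e2
  rw [← h1] at e3
  have e4 := t_pair _ _ _ _ _ _ h2 e1 e2 e3
  refine ⟨e4.1, e4.2, ?_⟩
  intro v hZ hv
  have hvT : v ∉ ({a, b} : Finset X) := by
    intro hh
    simp only [Finset.mem_insert, Finset.mem_singleton] at hh
    rcases hh with rfl | rfl
    · exact h2 (by rw [hv, hs])
    · exact h2 (by rw [hv, h1])
  have e5 := h.zero v hZ hvT (by
    rw [Finset.sum_pair hab, hv]
    exact t_self _)
  rw [Finset.sum_pair hab, ← hv] at e5
  exact t_pairv _ _ _ _ e1 e5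

/-! ### paths -/

theorem p4_dist (hs : ∀ x y, M x y = M y x) {a b c d : X} (h4 : IsP4 M a b c d) (ha : M a a = 0)
    (hb : M b b = 1) (hc : M c c = 1) (hd : M d d = 0) :
    a ≠ b ∧ a ≠ c ∧ a ≠ d ∧ b ≠ c ∧ b ≠ d ∧ c ≠ d := by
  have h0 : (1 : ZMod 2) ≠ 0 := by decide
  refine ⟨?_, ?_, ?_, ?_, ?_, ?_⟩
  · rintro rfl
    exact h0 (hb.symm.trans ha)
  · rintro rfl
    exact h0 (hc.symm.trans ha)
  · rintro rfl
    exact h0 (h4.ab.symm.trans ((hs _ _).trans h4.bd))
  · rintro rfl
    exact h0 (h4.ab.symm.trans h4.ac)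
  · rintro rfl
    exact h0 (hb.symm.trans hd)
  · rintro rfl
    exact h0 (hc.symm.trans hd)

theorem sum_four {a b c d : X} (hd : a ≠ b ∧ a ≠ c ∧ a ≠ d ∧ b ≠ c ∧ b ≠ d ∧ c ≠ d)
    (f : X → ZMod 2) : ∑ x ∈ ({a, b, c, d} : Finset X), f x = f a + (f b + (f c + f d)) := by
  obtain ⟨h1, h2, h3, h4, h5, h6⟩ := hd
  rw [Finset.sum_insert (by simp [h1, h2, h3]), Finset.sum_insert (by simp [h4, h5]),
    Finset.sum_pair h6]

theorem p4_one (hs : ∀ x y, M x y = M y x) {a b c d : X} (h4 : IsP4 M a b c d) (ha : M a a = 0)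
    (hb : M b b = 1) (hc : M c c = 1) (hd : M d d = 0) :
    ∀ v ∈ ({a, b, c, d} : Finset X), ∑ x ∈ ({a, b, c, d} : Finset X), M x v = 1 := by
  intro v hv
  rw [sum_four (p4_dist hs h4 ha hb hc hd)]
  simp only [Finset.mem_insert, Finset.mem_singleton] at hv
  rcases hv with rfl | rfl | rfl | rfl
  · rw [ha, hs b v, h4.ab, hs c v, h4.ac, hs d v, h4.ad]
    decide
  · rw [hb, h4.ab, hs c v, h4.bc, hs d v, h4.bd]
    decide
  · rw [hc, h4.ac, h4.bc, hs d v, h4.cd]
    decide
  · rw [hd, h4.ad, h4.bd, h4.cd]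
    decide

theorem p4_const (hs : ∀ x y, M x y = M y x) {a b c d : X} (h4 : IsP4 M a b c d) (hb : M b b = 1)
    {v : X} (h1 : M a v = M b v) (h2 : M a v = M c v) (h3 : M a v = M d v) :
    v ∉ ({a, b, c, d} : Finset X) := by
  have h0 : (1 : ZMod 2) ≠ 0 := by decide
  intro hv
  simp only [Finset.mem_insert, Finset.mem_singleton] at hv
  rcases hv with rfl | rfl | rfl | rfl
  · rw [hs b v, h4.ab, hs c v, h4.ac] at *
    exact h0 (h1.symm.trans h2)
  · rw [h4.ab, hs d v, h4.bd] at h3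
    exact h0 h3
  · rw [h4.ac, h4.bc] at h1
    exact h0 h1.symm
  · rw [h4.ad, h4.cd] at h2
    exact h0 h2.symm

theorem p4_half (hs : ∀ x y, M x y = M y x) {a b c d : X} (h4 : IsP4 M a b c d) (ha : M a a = 0)
    (hb : M b b = 1) (hc : M c c = 1) (hd : M d d = 0) {Z : X → Prop} {g : X} {t : X → ZMod 2}
    (h : Half M ({a, b, c, d} : Finset X) Z g t) :
    Bad M a b c d g ∧ ∀ v, Z v → M a v = M b v → M a v = M c v → M a v = M d v →
      M g v = M a v := by
  have hdist := p4_dist hs h4 ha hb hc hd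
  have e1 := h.odd
  have ea := h.one a (by simp)
  have eb := h.one b (by simp)
  have ec := h.one c (by simp)
  have ed := h.one d (by simp)
  rw [sum_four hdist] at e1 ea eb ec ed
  rw [ha, hs b a, h4.ab, hs c a, h4.ac, hs d a, h4.ad] at ea
  rw [hb, h4.ab, hs c b, h4.bc, hs d b, h4.bd] at eb
  rw [hc, h4.ac, h4.bc, hs d c, h4.cd] at ec
  rw [hd, h4.ad, h4.bd, h4.cd] at ed
  simp only [mul_zero, mul_one, zero_add, add_zero, ← add_assoc] at ea eb ec ed
  refine ⟨t_p4 _ _ _ _ _ _ _ _ e1 ea eb ec ed, ?_⟩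
  intro v hZ h1 h2 h3
  have e5 := h.zero v hZ (p4_const hs h4 hb h1 h2 h3) (by
    rw [sum_four hdist, ← h1, ← h2, ← h3]
    generalize M a v = m
    revert m
    decide)
  rw [sum_four hdist, ← h1, ← h2, ← h3] at e5
  exact t_p4v _ _ _ _ _ _ e1 e5

end

section
variable {X : Type} [Fintype X] [DecidableEq X]
variable {B : Submodule (ZMod 2) (X → K)} {e : X} {S : (X → K) → Finset X → Prop} {om : X → K}
  {M : X → X → ZMod 2}

theorem pair_ne (hR : Rows B e om M) {a b : X} (h1 : M a a = M b b) (h2 : M a b ≠ M a a) :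
    a ≠ b ∧ e ∉ ({a, b} : Finset X) := by
  refine ⟨?_, ?_⟩
  · rintro rfl
    exact h2 rfl
  · intro h
    simp only [Finset.mem_insert, Finset.mem_singleton] at h
    rcases h with rfl | rfl
    · exact h2 (by rw [hR.z0, hR.z0])
    · exact h2 (by rw [h1, hR.z0, hR.sym, hR.z0])

theorem pair_word (hR : Rows B e om M) {a b : X} (h1 : M a a = M b b) (h2 : M a b ≠ M a a) :
    ∃ w, WordOf B e om M {a, b} w := by
  obtain ⟨h3, h4⟩ := pair_ne hR h1 h2
  apply exists_word hR h4
  rw [Finset.sum_pair h3]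
  decide

theorem pair_irr (hR : Rows B e om M) {a b : X} (h1 : M a a = M b b) (h2 : M a b ≠ M a a)
    {w : X → K} (hw : WordOf B e om M {a, b} w) : Irr B w := by
  obtain ⟨h3, h4⟩ := pair_ne hR h1 h2
  apply irr_of hR hw _ (pair_one hR.sym h3 h1 h2)
  intro p hp _
  rw [Finset.sum_pair h3] at hp
  rcases t_pairi _ _ hp with ⟨e1, e2⟩ | ⟨e1, e2⟩
  · left
    intro v hv
    simp only [Finset.mem_insert, Finset.mem_singleton] at hv
    rcases hv with rfl | rfl
    · exact e1
    · exact e2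
  · right
    intro v hv
    simp only [Finset.mem_insert, Finset.mem_singleton] at hv
    rcases hv with rfl | rfl
    · exact e1
    · exact e2

theorem word_ne (hR : Rows B e om M) {T : Finset X} (hT : T.Nonempty) {w : X → K}
    (hw : WordOf B e om M T w) : w ≠ 0 := by
  obtain ⟨a, ha⟩ := hT
  intro h
  exact ((hw.zero_iff hR).1 (congrFun h a)).1 ha

theorem p4_e (hR : Rows B e om M) {a b c d : X} (h4 : IsP4 M a b c d) :
    e ∉ ({a, b, c, d} : Finset X) := by
  have h0 : (1 : ZMod 2) ≠ 0 := by decide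
  intro h
  simp only [Finset.mem_insert, Finset.mem_singleton] at h
  rcases h with rfl | rfl | rfl | rfl
  · exact h0 (h4.ab.symm.trans (hR.z0 _))
  · exact h0 (h4.bc.symm.trans (hR.z0 _))
  · exact h0 (h4.cd.symm.trans (hR.z0 _))
  · exact h0 (h4.cd.symm.trans ((hR.sym _ _).trans (hR.z0 _)))

theorem p4_word (hR : Rows B e om M) {a b c d : X} (h4 : IsP4 M a b c d) (ha : M a a = 0)
    (hb : M b b = 1) (hc : M c c = 1) (hd : M d d = 0) :
    ∃ w, WordOf B e om M {a, b, c, d} w := by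
  apply exists_word hR (p4_e hR h4)
  rw [sum_four (p4_dist hR.sym h4 ha hb hc hd)]
  decide

theorem p4_irr (hR : Rows B e om M) {a b c d : X} (h4 : IsP4 M a b c d) (ha : M a a = 0)
    (hb : M b b = 1) (hc : M c c = 1) (hd : M d d = 0) {w : X → K}
    (hw : WordOf B e om M {a, b, c, d} w) : Irr B w := by
  have hs := hR.sym
  have hdist := p4_dist hs h4 ha hb hc hd
  apply irr_of hR hw _ (p4_one hs h4 ha hb hc hd)
  intro p _ hp
  have ea := hp a (by simp)
  have eb := hp b (by simp)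
  have ec := hp c (by simp)
  have ed := hp d (by simp)
  rw [sum_four hdist] at ea eb ec ed
  rw [ha, hs b a, h4.ab, hs c a, h4.ac, hs d a, h4.ad] at ea
  rw [hb, h4.ab, hs c b, h4.bc, hs d b, h4.bd] at eb
  rw [hc, h4.ac, h4.bc, hs d c, h4.cd] at ec
  rw [hd, h4.ad, h4.bd, h4.cd] at ed
  simp only [mul_zero, mul_one, zero_add, add_zero, ← add_assoc] at ea eb ec ed
  rcases t_p4i _ _ _ _ ea eb ec ed with ⟨e1, e2, e3, e4⟩ | ⟨e1, e2, e3, e4⟩
  · left
    intro v hv
    simp only [Finset.mem_insert, Finset.mem_singleton] at hv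
    rcases hv with rfl | rfl | rfl | rfl
    exacts [e1, e2, e3, e4]
  · right
    intro v hv
    simp only [Finset.mem_insert, Finset.mem_singleton] at hv
    rcases hv with rfl | rfl | rfl | rfl
    exacts [e1, e2, e3, e4]

/-- **(P4)**: own places of the side of a closed path are bad -/
theorem p4_own (hR : Rows B e om M) (hS : RSides B e S) {a b c d : X} (h4 : IsP4 M a b c d)
    (ha : M a a = 0) (hb : M b b = 1) (hc : M c c = 1) (hd : M d d = 0) {w : X → K}
    (hw : WordOf B e om M {a, b, c, d} w) {Y : Finset X} (h : S w Y) {y : X} (hy : y ∈ Y) :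
    Bad M a b c d y ∧ ∀ v, v ∉ Y → M a v = M b v → M a v = M c v → M a v = M d v →
      M y v = M a v := by
  have hs := hR.sym
  have hdist := p4_dist hs h4 ha hb hc hd
  have hwy := (hw.zero_iff hR).1 (hS.zero w Y h y hy)
  have hye : y ≠ e := fun hh => hS.root w Y h (hh ▸ hy)
  obtain ⟨hyT, hy0⟩ := hwy
  rw [sum_four hdist] at hy0
  obtain ⟨ja, jb, jc, jd, j1, j2, j3, j4⟩ := t_p4j _ _ _ _ hy0
  have heT := p4_e hR h4
  simp only [Finset.mem_insert, Finset.mem_singleton, not_or] at hyT heT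
  obtain ⟨ya, yb, yc, yd⟩ := hyT
  obtain ⟨ea, eb, ec, ed⟩ := heT
  obtain ⟨ab, ac, ad, bc, bd, cd⟩ := hdist
  obtain ⟨q, hq, q1, q2⟩ := hR.mem (fun x => (if x = y then 1 else 0) + (if x = a then ja else 0) +
    (if x = b then jb else 0) + (if x = c then jc else 0) + (if x = d then jd else 0)) (by
      simp [Ne.symm hye, ea, eb, ec, ed])
  have q3 : ∀ v, (q v).1 = M y v + ja * M a v + jb * M b v + jc * M c v + jd * M d v := by
    intro v
    rw [q1]
    simp only [add_mul, Finset.sum_add_distrib, ite_mul, zero_mul, one_mul, Finset.sum_ite_eq',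
      Finset.mem_univ, if_true]
  suffices hh : ∃ t, Half M {a, b, c, d} (fun v => v ∉ Y) y t by
    obtain ⟨t, ht⟩ := hh
    exact p4_half hs h4 ha hb hc hd ht
  apply part_half hR hS hw (p4_one hs h4 ha hb hc hd) h hy hq
  · intro v hv
    have hve : v ≠ e := fun hh => p4_e hR h4 (hh ▸ hv)
    rw [q2 v hve, q3]
    simp only [Finset.mem_insert, Finset.mem_singleton] at hv
    rcases hv with rfl | rfl | rfl | rfl
    · rw [ha, hs b v, h4.ab, hs c v, h4.ac, hs d v, h4.ad, hs y v]
      simp only [mul_zero, mul_one, add_zero, if_neg (Ne.symm ya), if_neg ab, if_neg ac, if_neg ad,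
        if_true, zero_add]
      exact j1
    · rw [hb, h4.ab, hs c v, h4.bc, hs d v, h4.bd, hs y v]
      simp only [mul_zero, mul_one, add_zero, if_neg (Ne.symm yb), if_neg (Ne.symm ab), if_neg bc,
        if_neg bd, if_true, zero_add]
      rw [← add_assoc, ← add_assoc] at j2
      exact j2
    · rw [hc, h4.ac, h4.bc, hs d v, h4.cd, hs y v]
      simp only [mul_zero, mul_one, add_zero, if_neg (Ne.symm yc), if_neg (Ne.symm ac),
        if_neg (Ne.symm bc), if_neg cd, if_true, zero_add]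
      rw [← add_assoc, ← add_assoc] at j3
      exact j3
    · rw [hd, h4.ad, h4.bd, h4.cd, hs y v]
      simp only [mul_zero, mul_one, add_zero, if_neg (Ne.symm yd), if_neg (Ne.symm ad),
        if_neg (Ne.symm bd), if_neg (Ne.symm cd), if_true, zero_add]
      exact j4
  · intro v hv hve
    rw [q2 v hve]
    simp only [Finset.mem_insert, Finset.mem_singleton, not_or] at hv
    obtain ⟨v1, v2, v3, v4⟩ := hv
    simp only [if_neg v1, if_neg v2, if_neg v3, if_neg v4, add_zero]

/-- own places of the side of a closed pair -/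
theorem pair_own (hR : Rows B e om M) (hS : RSides B e S) {a b : X} (h1 : M a a = M b b)
    (h2 : M a b ≠ M a a) {w : X → K} (hw : WordOf B e om M {a, b} w) {Y : Finset X} (h : S w Y)
    {y : X} (hy : y ∈ Y) : M y a = M a b ∧ M y b = M a b ∧
      ∀ v, v ∉ Y → M a v = M b v → M y v = M a v := by
  have hs := hR.sym
  obtain ⟨hab, heT⟩ := pair_ne hR h1 h2
  have hwy := (hw.zero_iff hR).1 (hS.zero w Y h y hy)
  have hye : y ≠ e := fun hh => hS.root w Y h (hh ▸ hy)
  obtain ⟨hyT, hy0⟩ := hwy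
  rw [Finset.sum_pair hab, t_add0] at hy0
  simp only [Finset.mem_insert, Finset.mem_singleton, not_or] at hyT heT
  obtain ⟨ya, yb⟩ := hyT
  obtain ⟨ea, eb⟩ := heT
  have key : ∀ j k : ZMod 2, (M y a + j * M a a + k = j + 0 * k ∧ M y b + j * M a b + k = 0 * k) →
      ∃ t, Half M {a, b} (fun v => v ∉ Y) y t := by
    rintro j k ⟨k1, k2⟩
    obtain ⟨q, hq, q1, q2⟩ := hR.mem (fun x => (if x = y then 1 else 0) + (if x = a then j else 0))
      (by simp [Ne.symm hye, ea])
    have q3 : ∀ v, (q v).1 = M y v + j * M a v := by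
      intro v
      rw [q1]
      simp only [add_mul, Finset.sum_add_distrib, ite_mul, zero_mul, one_mul, Finset.sum_ite_eq',
        Finset.mem_univ, if_true]
    have q4 : ∀ v, (k • om v : K).1 = k := by
      intro v
      rw [Prod.smul_fst, hR.om1, smul_eq_mul, mul_one]
    have q5 : ∀ v, kf (k • om v) (om v) = 0 := by
      intro v
      exact kf_smul_self k (om v)
    refine part_half hR hS hw (pair_one hs hab h1 h2) h hy (q := q + k • om)
      (B.add_mem hq (B.smul_mem k hR.omB)) ?_ ?_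
    · intro v hv
      have hve : v ≠ e := by
        rintro rfl
        simp only [Finset.mem_insert, Finset.mem_singleton] at hv
        rcases hv with rfl | rfl
        · exact ea rfl
        · exact eb rfl
      rw [Pi.add_apply, Pi.smul_apply, kf_add_left, Prod.fst_add, q4, q5, add_zero, q2 v hve, q3]
      simp only [Finset.mem_insert, Finset.mem_singleton] at hv
      rcases hv with rfl | rfl
      · rw [if_neg (Ne.symm ya), if_pos rfl, zero_add, k1, zero_mul, add_zero]
      · rw [if_neg (Ne.symm yb), if_neg (Ne.symm hab), k2, zero_mul, add_zero]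
    · intro v hv hve
      rw [Pi.add_apply, Pi.smul_apply, kf_add_left, q5, add_zero, q2 v hve]
      simp only [Finset.mem_insert, Finset.mem_singleton, not_or] at hv
      rw [if_neg hv.1, add_zero]
  obtain ⟨t, ht⟩ : ∃ t, Half M {a, b} (fun v => v ∉ Y) y t := by
    have h3 : M y a = M y b := by rw [hs y a, hs y b, hy0]
    have h5 : ∀ ma m l : ZMod 2, l ≠ m → ∃ j k : ZMod 2, ma + j * m + k = j + 0 * k ∧
        ma + j * l + k = 0 * k := by decide
    obtain ⟨j, k, h6⟩ := h5 (M y a) _ _ h2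
    apply key j k
    rw [← h3]
    exact h6
  exact pair_half hs hab h1 h2 ht

end

end Pool.Agent.H90.Full
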