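import Pool.Agent.H98.TR.InvM
import Pool.Agent.H77.Q.Defs
import Pool.Agent.H33.CG.ClaimA

set_option autoImplicit false

/-!
Rooted codes with sides (MP_a46c6f_co, full Q1): the kernel is zero, rows relative to the full word.
-/

namespace Pool.Agent.H90.Full

open Pool.Agent.H98.Code Pool.Agent.H17.TR Pool.Agent.H17.P3 Pool.Agent.H77.Q Pool.Agent.H98.TR

/-! ### letters -/

theorem kf_om {a b : K} (hb : b.1 = 1) : kf a b = 0 ↔ a = 0 ∨ a = b := by
  revert a b
  decide

theorem eq_of_pair {a b o : K} (ho : o.1 = 1) (h1 : a.1 = b.1) (h2 : kf a o = kf b o) :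
    a = b := by
  revert a b o
  decide

theorem zero_of_pair {a o : K} (ho : o.1 = 1) (h1 : a.1 = 0) (h2 : kf a o = 0) : a = 0 := by
  revert a o
  decide

theorem z_of_pair {a o : K} (ho : o.1 = 1) (h1 : a.1 = 0) (h2 : kf a o = 1) : a = z := by
  revert a o
  decide

theorem kf_z_om {o : K} (ho : o.1 = 1) : kf z o = 1 := by
  revert o
  decide

theorem z01 (a : ZMod 2) : a = 0 ∨ a = 1 := by
  revert a
  decide

theorem one_ne : (1 : ZMod 2) ≠ 0 := by decide

section
variable {X : Type} [Fintype X] [DecidableEq X]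

/-- irreducible component of a word at a place -/
theorem comp_irr {B : Submodule (ZMod 2) (X → K)} {k : X → K} (hk : k ∈ B) {y : X} (hy : k y ≠ 0) :
    ∃ d ∈ B, (∀ v, d v = 0 ∨ d v = k v) ∧ d y ≠ 0 ∧ Irr B d := by
  classical
  have hex : ∃ n, ∃ d ∈ B, (∀ v, d v = 0 ∨ d v = k v) ∧ d y ≠ 0 ∧
      (Finset.univ.filter (fun v => d v ≠ 0)).card = n :=
    ⟨_, k, hk, fun v => Or.inr rfl, hy, rfl⟩
  obtain ⟨d, hd, h1, h2, h3⟩ := Nat.find_spec hex
  have hmin : ∀ d' ∈ B, (∀ v, d' v = 0 ∨ d' v = d v) → d' y ≠ 0 → d' = d := by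
    intro d' hd' g1 g2
    have g3 : ∀ v, d' v = 0 ∨ d' v = k v := by
      intro v
      rcases g1 v with h | h
      · exact Or.inl h
      · rw [h]
        exact h1 v
    have g4 : Nat.find hex ≤ (Finset.univ.filter (fun v => d' v ≠ 0)).card :=
      Nat.find_min' hex ⟨d', hd', g3, g2, rfl⟩
    rw [← h3] at g4
    have g5 : Finset.univ.filter (fun v => d' v ≠ 0) ⊆ Finset.univ.filter (fun v => d v ≠ 0) := by
      intro v hv
      rw [Finset.mem_filter] at hv ⊢
      refine ⟨hv.1, fun h => ?_⟩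
      rcases g1 v with h' | h'
      · exact hv.2 h'
      · exact hv.2 (h'.trans h)
    have g6 := Finset.eq_of_subset_of_card_le g5 g4
    funext v
    rcases g1 v with h | h
    · by_contra hne
      have : v ∈ Finset.univ.filter (fun v => d v ≠ 0) := by
        rw [Finset.mem_filter]
        refine ⟨Finset.mem_univ v, fun h' => hne (h.trans h'.symm)⟩
      rw [← g6, Finset.mem_filter] at this
      exact this.2 h
    · exact h
  refine ⟨d, hd, h1, h2, ?_⟩
  intro d' hd' g1
  by_cases g2 : d' y = 0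
  · left
    have g3 : d + d' = d := by
      apply hmin _ (B.add_mem hd hd')
      · intro v
        rcases g1 v with h | h
        · right
          rw [Pi.add_apply, h, add_zero]
        · left
          rw [Pi.add_apply, h, k_add_self]
      · rw [Pi.add_apply, g2, add_zero]
        exact h2
    exact left_eq_add.1 g3.symm
  · right
    exact hmin d' hd' g1 g2

/-- a word below a full word does not split -/
theorem no_split {B : Submodule (ZMod 2) (X → K)} {om : X → K} (hom : ∀ v, (om v).1 = 1)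
    (hpar : ∀ u ∈ B, ∑ v, kf (u v) (om v) = 0) {d : X → K} (hd : ∀ v, d v = 0 ∨ d v = om v)
    {g : X} (hs : Splits B d g) : False := by
  obtain ⟨c₁, h1, c₂, h2, h3, h4, h5, h6⟩ := hs
  have h7 := hpar c₁ h1
  rw [Finset.sum_eq_single g] at h7
  · rw [h4, kf_z_om (hom g)] at h7
    exact one_ne h7
  · intro v _ hv
    rw [kf_om (hom v)]
    rcases h6 v hv with h | h
    · exact Or.inl h
    · have h8 : c₁ v = d v := by
        rw [← h3, Pi.add_apply, h, add_zero]
      rw [h8]
      exact hd v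
  · intro h
    exact absurd (Finset.mem_univ g) h

section
variable {B : Submodule (ZMod 2) (X → K)} {e : X} {S : (X → K) → Finset X → Prop} {om : X → K}

theorem ker_aux (hS : RSides B e S) (hom : ∀ v, (om v).1 = 1) (homB : om ∈ B)
    (hpar : ∀ u ∈ B, ∑ v, kf (u v) (om v) = 0) (n : ℕ) : ∀ (u : X → K) (Y : Finset X),
    Y.card = n → S u Y → Irr B u → u e = 0 → (∀ v, u v = 0 ∨ u v = om v) → Y.Nonempty → False := by
  induction n using Nat.strong_induction_on with
  | _ n ih =>
    intro u Y hn hu hi he hle hY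
    obtain ⟨k, hk, k1, k2, k3⟩ := hS.part u Y hu om homB (fun v hv => by
      right
      rcases hle v with h | h
      · exact absurd h hv
      · exact h.symm)
    obtain ⟨y, hy⟩ := hY
    have hky : k y ≠ 0 := by
      rw [k1 y hy]
      intro h
      have := congrArg Prod.fst h
      rw [hom y] at this
      exact one_ne this
    obtain ⟨d, hd, d1, d2, d3⟩ := comp_irr hk hky
    have hkle : ∀ v, k v = 0 ∨ k v = om v := by
      intro v
      by_cases hv : u v = 0
      · by_cases hvY : v ∈ Y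
        · exact Or.inr (k1 v hvY)
        · exact Or.inl (k2 v hv hvY)
      · rcases k3 v hv with h | h
        · exact Or.inl h
        · rcases hle v with h' | h'
          · exact absurd h' hv
          · exact Or.inr (h.trans h')
    have hdle : ∀ v, d v = 0 ∨ d v = om v := by
      intro v
      rcases d1 v with h | h
      · exact Or.inl h
      · rw [h]
        exact hkle v
    have hke : k e = 0 := k2 e he (hS.root u Y hu)
    have hde : d e = 0 := by
      rcases d1 e with h | h
      · exact h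
      · exact h.trans hke
    have hdz : ZFree d := by
      intro v h
      rcases hdle v with h' | h'
      · rw [h'] at h
        exact absurd h (by decide)
      · have := hom v
        rw [← h', h] at this
        exact absurd this (by decide)
    rcases hS.mono u Y hu hi d hd hdz (fun h => d2 (congrFun h y)) d3 (fun v hv => by
        rcases d1 v with h | h
        · exact Or.inl h
        · rw [h]
          exact k3 v hv) (fun v hv hvY => by
        rcases d1 v with h | h
        · exact h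
        · exact h.trans (k2 v hv hvY)) with ⟨g, hg⟩ | ⟨Y', hY'1, hY'2, hY'3⟩
    · exact no_split hom hpar hdle hg
    · have hyY' : y ∉ Y' := fun h => d2 (hS.zero d Y' hY'3 y h)
      have hlt : Y'.card < n := by
        rw [← hn]
        exact Finset.card_lt_card ⟨hY'1, fun h => hyY' (h hy)⟩
      exact ih _ hlt d Y' rfl hY'3 d3 hde hdle hY'2

/-- **the kernel is zero** -/
theorem ker (hS : RSides B e S) (hom : ∀ v, (om v).1 = 1) (homB : om ∈ B)
    (hpar : ∀ u ∈ B, ∑ v, kf (u v) (om v) = 0) {u : X → K} (hu : u ∈ B) (he : u e = 0)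
    (hle : ∀ v, u v = 0 ∨ u v = om v) : u = 0 := by
  by_contra hne
  obtain ⟨y, hy⟩ := Function.ne_iff.1 hne
  obtain ⟨d, hd, d1, d2, d3⟩ := comp_irr hu hy
  have hdle : ∀ v, d v = 0 ∨ d v = om v := by
    intro v
    rcases d1 v with h | h
    · exact Or.inl h
    · rw [h]
      exact hle v
  have hde : d e = 0 := by
    rcases d1 e with h | h
    · exact h
    · exact h.trans he
  have hdz : ZFree d := by
    intro v h
    rcases hdle v with h' | h'
    · rw [h'] at h
      exact absurd h (by decide)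
    · have := hom v
      rw [← h', h] at this
      exact absurd this (by decide)
  rcases hS.ex d hd hdz hde (fun h => d2 (congrFun h y)) d3 with ⟨g, hg⟩ | ⟨Y, hY1, hY2⟩
  · exact no_split hom hpar hdle hg
  · exact ker_aux hS hom homB hpar _ d Y rfl hY2 d3 hde hdle hY1

end

/-- rows of a rooted code relative to a full word -/
structure Rows (B : Submodule (ZMod 2) (X → K)) (e : X) (om : X → K) (M : X → X → ZMod 2) :
    Prop where
  sym : ∀ x y, M x y = M y x
  z0 : ∀ x, M e x = 0
  om1 : ∀ v, (om v).1 = 1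
  omB : om ∈ B
  mem : ∀ t : X → ZMod 2, t e = 0 →
    ∃ u ∈ B, (∀ v, (u v).1 = ∑ x, t x * M x v) ∧ ∀ v, v ≠ e → kf (u v) (om v) = t v
  par : ∀ u ∈ B, ∑ v, kf (u v) (om v) = 0
  uniq : ∀ u ∈ B, (u e).1 = 0 → ∀ t : X → ZMod 2, t e = 0 →
    (∀ v, v ≠ e → kf (u v) (om v) = t v) → ∀ v, (u v).1 = ∑ x, t x * M x v
  ker : ∀ u ∈ B, u e = 0 → (∀ v, kf (u v) (om v) = 0) → u = 0

section
variable {B : Submodule (ZMod 2) (X → K)} {H : X → X → ZMod 2} {e : X}
  {S : (X → K) → Finset X → Prop}

/-- the full word -/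
def omH (H : X → X → ZMod 2) : X → K := fun v => (1, ∑ w, H v w)

theorem omH_mem (hH : IsMat B H) : omH H ∈ B := by
  rw [hH.mem]
  intro v
  simp [omH]

theorem kf_W (H : X → X → ZMod 2) (e : X) (f : {v // v ≠ e} → ZMod 2) (x : {v // v ≠ e}) :
    kf (W H e f x.1) (omH H x.1) = (Lam H e).mulVec f x := by
  rw [W_val]
  unfold omH kf
  simp only [mul_one]
  generalize (Lam H e).mulVec f x = a
  generalize f x = b
  generalize ∑ w, H x.1 w = c
  revert a b c
  decide

theorem par_H (hB : IsCode B) (hH : IsMat B H) : ∀ u ∈ B, ∑ v, kf (u v) (omH H v) = 0 :=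
  fun u hu => hB.iso u hu _ (omH_mem hH)

/-- **rows exist** -/
theorem exists_rows (hB : IsCode B) (hH : IsMat B H) (hS : RSides B e S) :
    ∃ M : X → X → ZMod 2, Rows B e (omH H) M ∧
      ∀ u, u ≠ e → ∀ v, ∑ w, H u w * (M u v + M w v) = if u = v then 1 else 0 := by
  have hom : ∀ v, (omH H v).1 = 1 := fun v => rfl
  have hker : ∀ u ∈ B, u e = 0 → (∀ v, kf (u v) (omH H v) = 0) → u = 0 := fun u hu he h =>
    ker hS hom (omH_mem hH) (par_H hB hH) hu he (fun v => (kf_om (hom v)).1 (h v))
  have hinj0 : ∀ f : {v // v ≠ e} → ZMod 2, (Lam H e).mulVec f = 0 → f = 0 := by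
    intro f hf
    have hWe : W H e f e = 0 := by
      rw [W_e hH.sym, hf]
      simp
    have h1 := hker _ (W_mem hH e f) hWe (fun v => by
      by_cases hv : v = e
      · rw [hv, hWe, kf_zero_left]
      · rw [kf_W H e f ⟨v, hv⟩, hf]
        rfl)
    funext x
    have := congrFun h1 x.1
    rw [W_val] at this
    exact congrArg Prod.fst this
  have hinj : Function.Injective (Lam H e).mulVec := by
    intro f f' hff
    have h1 : (Lam H e).mulVec (f - f') = 0 := by
      rw [Matrix.mulVec_sub, hff, sub_self]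
    exact sub_eq_zero.1 (hinj0 _ h1)
  have hu : IsUnit (Lam H e) := Matrix.mulVec_injective_iff_isUnit.1 hinj
  have hdet : IsUnit (Lam H e).det := (Matrix.isUnit_iff_isUnit_det _).1 hu
  have hN : Lam H e * (Lam H e)⁻¹ = 1 := Matrix.mul_nonsing_inv _ hdet
  have hN' : (Lam H e)⁻¹ * Lam H e = 1 := Matrix.nonsing_inv_mul _ hdet
  have hT : (Lam H e).transpose = Lam H e := by
    ext x y
    unfold Lam
    rw [Matrix.transpose_apply, hH.sym]
    by_cases hxy : x = y
    · rw [hxy]
    · rw [if_neg hxy, if_neg (Ne.symm hxy)]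
  have hNs : ∀ x y, (Lam H e)⁻¹ x y = (Lam H e)⁻¹ y x := by
    intro x y
    have h1 := Matrix.transpose_nonsing_inv (Lam H e)
    rw [hT] at h1
    have h2 : (Lam H e)⁻¹.transpose y x = (Lam H e)⁻¹ y x := by rw [h1]
    exact h2
  have hsumM : ∀ (t : X → ZMod 2) (x : {v // v ≠ e}),
      ∑ y, t y * MM (Lam H e)⁻¹ y x.1 = (Lam H e)⁻¹.mulVec (fun y : {v // v ≠ e} => t y.1) x := by
    intro t x
    rw [Fintype.sum_eq_add_sum_subtype_ne (fun y => t y * MM (Lam H e)⁻¹ y x.1) e, MM_left,
      mul_zero, zero_add]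
    unfold Matrix.mulVec dotProduct
    refine Finset.sum_congr rfl fun y _ => ?_
    rw [MM_val]
    show t y.1 * (Lam H e)⁻¹ y x = (Lam H e)⁻¹ x y * t y.1
    rw [hNs x y, mul_comm]
  have hsumE : ∀ (t : X → ZMod 2), ∑ y, t y * MM (Lam H e)⁻¹ y e = 0 := by
    intro t
    apply Finset.sum_eq_zero
    intro y _
    rw [MM_right, mul_zero]
  refine ⟨MM (Lam H e)⁻¹, ⟨?_, MM_left _, hom, omH_mem hH, ?_, par_H hB hH, ?_, hker⟩, ?_⟩
  · intro x y
    by_cases hx : x = e
    · rw [hx, MM_left, MM_right]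
    · by_cases hy : y = e
      · rw [hy, MM_left, MM_right]
      · rw [MM_val _ ⟨x, hx⟩ ⟨y, hy⟩, MM_val _ ⟨y, hy⟩ ⟨x, hx⟩, hNs]
  · intro t _
    refine ⟨W H e ((Lam H e)⁻¹.mulVec (fun y : {v // v ≠ e} => t y.1)), W_mem hH e _, ?_, ?_⟩
    · intro v
      by_cases hv : v = e
      · rw [hv, W_e hH.sym, hsumE]
      · rw [W_val H e _ ⟨v, hv⟩, hsumM t ⟨v, hv⟩]
    · intro v hv
      rw [kf_W H e _ ⟨v, hv⟩, Matrix.mulVec_mulVec, hN, Matrix.one_mulVec]
  · intro u hu h0 t _ ht v
    have e1 := eq_W hH hu h0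
    generalize (fun x : {v // v ≠ e} => (u x.1).1) = f at e1
    subst e1
    have e2 : (Lam H e).mulVec f = fun y : {v // v ≠ e} => t y.1 := by
      funext x
      rw [← kf_W]
      exact ht x.1 x.2
    by_cases hv : v = e
    · rw [hv, W_e hH.sym, hsumE]
    · rw [W_val H e _ ⟨v, hv⟩, hsumM t ⟨v, hv⟩, ← e2, Matrix.mulVec_mulVec, hN',
        Matrix.one_mulVec]
  · intro u hu v
    by_cases hv : v = e
    · rw [hv, if_neg hu]
      apply Finset.sum_eq_zero
      intro w _
      rw [MM_right, MM_right, add_zero, mul_zero]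
    · have h1 : ∑ w, H u w * (MM (Lam H e)⁻¹ u v + MM (Lam H e)⁻¹ w v) =
          (Lam H e).mulVec (fun x => (Lam H e)⁻¹ x ⟨v, hv⟩) ⟨u, hu⟩ := by
        rw [act_eq]
        have h2 : ∀ w, MM (Lam H e)⁻¹ w v =
            ext0 e (fun x => (Lam H e)⁻¹ x ⟨v, hv⟩) w := by
          intro w
          by_cases hw : w = e
          · rw [hw, ext0_e, MM_left]
          · rw [ext0_val e _ ⟨w, hw⟩, MM_val _ ⟨w, hw⟩ ⟨v, hv⟩]
        simp only [mul_add, Finset.sum_add_distrib, h2]
        rw [ext0_val e _ ⟨u, hu⟩, Finset.sum_mul, add_comm]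
      rw [h1]
      have h3 : (Lam H e).mulVec (fun x => (Lam H e)⁻¹ x ⟨v, hv⟩) ⟨u, hu⟩ =
          (Lam H e * (Lam H e)⁻¹) ⟨u, hu⟩ ⟨v, hv⟩ := rfl
      rw [h3, hN, Matrix.one_apply]
      by_cases huv : u = v
      · subst huv
        rw [if_pos rfl, if_pos rfl]
      · rw [if_neg huv, if_neg (fun hh => huv (congrArg Subtype.val hh))]

end

end

end Pool.Agent.H90.Full
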